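import Pool.Agent.Run7.h696.CF.Iface2
import Pool.Agent.Run7.h225.HG.Conn

/-!
# Project CF (helper696), piece EXT: analytic continuation to `Re z < 1/2` (helper416)
-/

set_option autoImplicit false

open Filter Topology Matrix Polynomial Pool.Agent.Y119.HY

namespace Pool.Agent.Run7.h416.CF

open Pool.Agent.Run7.h225.HG.CON

variable {n : ℕ}

lemma E_comm (N : Matrix (Fin n) (Fin n) ℂ) (s : ℂ) : E N s * N = N * E N s := by
  unfold E
  rw [Finset.sum_mul, Finset.mul_sum]
  refine Finset.sum_congr rfl fun i _ => ?_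
  rw [smul_mul_assoc, mul_smul_comm, ← pow_succ, ← pow_succ']

/-- local form of the separation of the logarithm -/
lemma log_loc {A : Matrix (Fin n) (Fin n) ℂ} (S : Matrix (Fin n) (Fin n) ℂ) {P : ℂ → Matrix (Fin n) (Fin n) ℂ}
    (hP : ∀ i j, AnalyticAt ℂ (fun z => P z i j) 0)
    (h : ∀ᶠ x : ℝ in 𝓝[>] 0, P x = E A ((Real.log x : ℝ) : ℂ) * S * E (-A) ((Real.log x : ℝ) : ℂ)) (i j : Fin n) :
    ∀ᶠ z in 𝓝 (0 : ℂ), P z i j = P 0 i j := by
  set q : ℂ[X] := (Ep A * S.map C * Ep (-A)) i j with hq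
  have h1 := log_sep (d := q.natDegree + 1) (fun l z => (C (P z i j) + -q).coeff l) (fun l _ => by
    simp only [coeff_add, coeff_C, coeff_neg]
    refine AnalyticAt.add ?_ analyticAt_const
    by_cases hl : l = 0
    · simp only [hl, if_true]
      exact hP i j
    · simp only [if_neg hl]
      exact analyticAt_const) (by
    filter_upwards [h] with x hx
    have hd : (C (P (x : ℂ) i j) + -q).natDegree < q.natDegree + 1 := by
      refine lt_of_le_of_lt (natDegree_add_le _ _) ?_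
      rw [natDegree_C, natDegree_neg]
      omega
    rw [← Polynomial.eval_eq_sum_range' hd, eval_add, eval_neg, eval_C, hx]
    have h2 : (Ep A * S.map C * Ep (-A)).map (Polynomial.eval ((Real.log x : ℝ) : ℂ)) =
        E A ((Real.log x : ℝ) : ℂ) * S * E (-A) ((Real.log x : ℝ) : ℂ) := by
      rw [map_mul_eval, map_mul_eval, map_C_eval, Ep_eval, Ep_eval]
    rw [← h2, Matrix.map_apply, hq]
    ring) 0 (Nat.succ_pos _)
  simp only [coeff_add, coeff_C_zero, coeff_neg] at h1
  have h2 := h1.self_of_nhds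
  filter_upwards [h1] with z hz
  linear_combination hz - h2

/-- the continuation -/
noncomputable def V (A : Matrix (Fin n) (Fin n) ℂ) (H' : ℕ → Matrix (Fin n) (Fin n) ℂ) (z : ℂ) :
    Matrix (Fin n) (Fin n) ℂ := Hf H' (z / (z - 1)) * E A (-Complex.log (1 - z))

lemma re_facts {z : ℂ} (hz : z.re < 1 / 2) : 1 - z ∈ Complex.slitPlane ∧ 1 - z ≠ 0 ∧ z - 1 ≠ 0 ∧ ‖z / (z - 1)‖ < 1 := by
  have h1 : (1 - z) ∈ Complex.slitPlane := by
    left
    rw [Complex.sub_re, Complex.one_re]
    linarith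
  have h2 : 1 - z ≠ 0 := Complex.slitPlane_ne_zero h1
  have h3 : z - 1 ≠ 0 := by
    intro h0
    apply h2
    linear_combination -h0
  refine ⟨h1, h2, h3, ?_⟩
  rw [norm_div, div_lt_one (norm_pos_iff.2 h3)]
  have h4 : ‖z‖ ^ 2 < ‖z - 1‖ ^ 2 := by
    rw [Complex.sq_norm, Complex.sq_norm, Complex.normSq_apply, Complex.normSq_apply, Complex.sub_re, Complex.sub_im,
      Complex.one_re, Complex.one_im]
    nlinarith
  exact lt_of_pow_lt_pow_left₀ 2 (norm_nonneg _) h4

variable {A B : Matrix (Fin n) (Fin n) ℂ} {H H' : ℕ → Matrix (Fin n) (Fin n) ℂ}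

lemma V_an (hA : A ^ n = 0) (hH' : Sol A (A - B) H') {z : ℂ} (hz : z.re < 1 / 2) (i j : Fin n) :
    AnalyticAt ℂ (fun w => V A H' w i j) z := by
  obtain ⟨h1, h2, h3, h4⟩ := re_facts hz
  unfold V
  simp only [Matrix.mul_apply]
  refine Finset.analyticAt_fun_sum _ fun l _ => AnalyticAt.mul ?_ ?_
  · have h5 : AnalyticAt ℂ (fun w => Hf H' w i l) (z / (z - 1)) := Hf_an hH' hA i l _ (by
      rwa [Metric.mem_ball, dist_zero_right])
    have h6 : AnalyticAt ℂ (fun w : ℂ => w / (w - 1)) z := analyticAt_id.div (analyticAt_id.sub analyticAt_const) h3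
    exact AnalyticAt.fun_comp (f := fun w : ℂ => w / (w - 1)) h5 h6
  · have h5 : Differentiable ℂ fun s => E A s l j := fun s => ((E_HD hA s) l j).differentiableAt
    have h6 : AnalyticAt ℂ (fun w : ℂ => -Complex.log (1 - w)) z :=
      ((analyticAt_const.sub analyticAt_id).clog h1).neg
    exact AnalyticAt.fun_comp (f := fun w : ℂ => -Complex.log (1 - w)) (h5.analyticAt _) h6

lemma V_zero (hA : A ^ n = 0) (hH' : Sol A (A - B) H') : V A H' 0 = 1 := by
  unfold V
  rw [zero_div, sub_zero, Complex.log_one, neg_zero, Hf_zero hH', E_zero hA, one_mul]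

lemma V_ode (hA : A ^ n = 0) (hH' : Sol A (A - B) H') {z : ℂ} (hz : z.re < 1 / 2) (hz0 : z ≠ 0) :
    HD (V A H') ((1 / z) • (A * V A H' z - V A H' z * A) + (1 / (1 - z)) • (B * V A H' z)) z := by
  obtain ⟨h1, h2, h3, h4⟩ := re_facts hz
  have hw : HasDerivAt (fun w : ℂ => w / (w - 1)) (-1 / (z - 1) ^ 2) z := by
    have h5 := (hasDerivAt_id z).div ((hasDerivAt_id z).sub_const 1) h3
    refine h5.congr_deriv ?_
    simp only [id]
    congr 1
    ring
  have hl : HasDerivAt (fun w : ℂ => -Complex.log (1 - w)) (1 / (1 - z)) z := by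
    have h5 := (((hasDerivAt_id z).const_sub 1).clog h1).neg
    refine h5.congr_deriv ?_
    simp only [id]
    rw [neg_div, neg_neg]
  have hw0 : z / (z - 1) ≠ 0 := div_ne_zero hz0 h3
  have h5 := (HD.comp (f := fun w : ℂ => w / (w - 1)) (Hf_ode hH' hA h4 hw0) hw).mul
    (HD.comp (f := fun w : ℂ => -Complex.log (1 - w)) (E_HD hA (-Complex.log (1 - z))) hl)
  refine h5.congr ?_
  set Y := Hf H' (z / (z - 1)) with hY
  set F := E A (-Complex.log (1 - z)) with hF
  have hV : V A H' z = Y * F := rfl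
  have hcomm : F * A = A * F := E_comm A _
  have e1 : (-1 / (z - 1) ^ 2) * (1 / (z / (z - 1))) = 1 / z + 1 / (1 - z) := by
    field_simp
    ring
  have e2 : (-1 / (z - 1) ^ 2) * (1 / (1 - z / (z - 1))) = -(1 / (1 - z)) := by
    have h6 : 1 - z / (z - 1) = -1 / (z - 1) := by
      field_simp
      ring
    rw [h6]
    field_simp
    ring
  have e3 : ((-1 / (z - 1) ^ 2) • ((1 / (z / (z - 1))) • (A * Y - Y * A) + (1 / (1 - z / (z - 1))) • ((A - B) * Y))) * F +
      Y * ((1 / (1 - z)) • (A * F)) = ((-1 / (z - 1) ^ 2) * (1 / (z / (z - 1)))) • (A * (Y * F) - Y * (A * F)) +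
      ((-1 / (z - 1) ^ 2) * (1 / (1 - z / (z - 1)))) • (A * (Y * F) - B * (Y * F)) + (1 / (1 - z)) • (Y * (A * F)) := by
    simp only [smul_add, add_mul, smul_mul_assoc, sub_mul, mul_smul_comm, Matrix.mul_assoc, smul_smul]
  rw [e3, e1, e2, hV, Matrix.mul_assoc Y F A, hcomm]
  module

lemma U_ode (hA : A ^ n = 0) (hH' : Sol A (A - B) H') {z : ℂ} (hz : z.re < 1 / 2) (hz0 : z ∈ Complex.slitPlane) :
    HD (fun w => V A H' w * E A (Complex.log w)) (Gm A B z * (V A H' z * E A (Complex.log z))) z := by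
  have hz0' : z ≠ 0 := Complex.slitPlane_ne_zero hz0
  have h1 := V_ode hA hH' hz hz0'
  have h2 : HD (fun w => E A (Complex.log w)) (z⁻¹ • (A * E A (Complex.log z))) z :=
    (E_HD hA (Complex.log z)).comp (Complex.hasDerivAt_log hz0)
  refine (h1.mul h2).congr ?_
  unfold Gm
  simp only [add_mul, smul_mul_assoc, sub_mul, mul_smul_comm, Matrix.mul_assoc, smul_sub, one_div]
  abel

/-- the domain of uniqueness -/
def Dm : Set ℂ := Metric.ball 0 1 ∩ {z : ℂ | z.re < 1 / 2}

lemma Dm_convex : Convex ℝ Dm := (convex_ball _ _).inter (convex_halfSpace_re_lt _)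

/-- a convex domain without the negative axis -/
def Dp : Set ℂ := Dm ∩ {z : ℂ | 0 < z.re}

lemma Dp_convex : Convex ℝ Dp := Dm_convex.inter (convex_halfSpace_re_gt _)

lemma Dp_open : IsOpen Dp := by
  refine (Metric.isOpen_ball.inter ?_).inter ?_
  · exact isOpen_lt Complex.continuous_re continuous_const
  · exact isOpen_lt continuous_const Complex.continuous_re

theorem V_eq (hA : A ^ n = 0) (hH : Sol A B H) (hH' : Sol A (A - B) H') {z : ℂ} (hz1 : ‖z‖ < 1) (hz2 : z.re < 1 / 2) :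
    V A H' z = Hf H z := by
  have hA' := nil_transpose hA
  obtain ⟨H1, hH1⟩ := exists_sol hA' (-B.transpose)
  obtain ⟨p1, -⟩ := pair_one hA hH hH1
  set P : ℂ → Matrix (Fin n) (Fin n) ℂ := fun w => (Hf H1 w).transpose * V A H' w with hP
  set Q : ℂ → Matrix (Fin n) (Fin n) ℂ := fun w =>
    (Yf (-A.transpose) H1 w).transpose * (V A H' w * E A (Complex.log w)) with hQ
  have hPan : ∀ i j, AnalyticAt ℂ (fun w => P w i j) 0 := by
    intro i j
    simp only [hP, Matrix.mul_apply, Matrix.transpose_apply]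
    refine Finset.analyticAt_fun_sum _ fun l _ => AnalyticAt.mul ?_ ?_
    · exact Hf_an hH1 hA' l i 0 (Metric.mem_ball_self one_pos)
    · exact V_an hA hH' (by norm_num) l j
  have hQd : ∀ w ∈ Dp, HD Q 0 w := by
    intro w hw
    obtain ⟨⟨hw1, hw2⟩, hw3⟩ := hw
    rw [Metric.mem_ball, dist_zero_right] at hw1
    have hs : w ∈ Complex.slitPlane := Or.inl hw3
    have h1 := Yf_ode hH1 hA' hw1 hs
    rw [Gm_dual] at h1
    exact pair_dual h1 (U_ode hA hH' hw2 hs)
  have hq : ((1 / 4 : ℝ) : ℂ) ∈ Dp := by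
    refine ⟨⟨?_, ?_⟩, ?_⟩
    · rw [Metric.mem_ball, dist_zero_right, Complex.norm_real, Real.norm_eq_abs, abs_of_pos (by norm_num)]
      norm_num
    · show (((1 / 4 : ℝ) : ℂ)).re < 1 / 2
      rw [Complex.ofReal_re]
      norm_num
    · show 0 < (((1 / 4 : ℝ) : ℂ)).re
      rw [Complex.ofReal_re]
      norm_num
  have hconst : ∀ w ∈ Dp, Q w = Q ((1 / 4 : ℝ) : ℂ) := by
    intro w hw
    ext i j
    exact Dp_open.is_const_of_deriv_eq_zero Dp_convex.isPreconnected
      (fun x hx => ((hQd x hx) i j).differentiableAt.differentiableWithinAt)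
      (fun x hx => ((hQd x hx) i j).deriv) hw hq
  have hloc : ∀ i j, ∀ᶠ w in 𝓝 (0 : ℂ), P w i j = P 0 i j := by
    intro i j
    refine log_loc (A := A) (Q ((1 / 4 : ℝ) : ℂ)) hPan ?_ i j
    have h1 : ∀ᶠ x : ℝ in 𝓝[>] 0, x < 1 / 2 :=
      tendsto_nhdsWithin_of_tendsto_nhds tendsto_id (gt_mem_nhds (by norm_num))
    filter_upwards [h1, self_mem_nhdsWithin] with x hx hx0
    have hx0' : 0 < x := hx0
    have hxD : (x : ℂ) ∈ Dp := by
      refine ⟨⟨?_, ?_⟩, ?_⟩
      · rw [Metric.mem_ball, dist_zero_right, Complex.norm_real, Real.norm_eq_abs, abs_of_pos hx0']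
        linarith
      · show ((x : ℂ)).re < 1 / 2
        rw [Complex.ofReal_re]
        exact hx
      · show 0 < ((x : ℂ)).re
        rw [Complex.ofReal_re]
        exact hx0'
    rw [← hconst _ hxD, hQ, hP]
    simp only
    unfold Yf
    rw [← Complex.ofReal_log hx0'.le, Matrix.transpose_mul, E_transpose, Matrix.transpose_neg, Matrix.transpose_transpose,
      E_neg]
    set L : ℂ := ((Real.log x : ℝ) : ℂ)
    have h3 : E A L * E A (-L) = 1 := E_mul_neg hA L
    calc (Hf H1 x).transpose * V A H' x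
        = (E A L * E A (-L)) * (Hf H1 x).transpose * V A H' x * (E A L * E A (-L)) := by rw [h3, one_mul, mul_one]
      _ = E A L * (E A (-L) * (Hf H1 x).transpose * (V A H' x * E A L)) * E A (-L) := by
          simp only [Matrix.mul_assoc]
  have hP0 : P 0 = 1 := by
    simp only [hP]
    rw [Hf_zero hH1, V_zero hA hH', Matrix.transpose_one, one_mul]
  -- equality near the origin
  have hnear : ∀ i j, ∀ᶠ w in 𝓝 (0 : ℂ), V A H' w i j = Hf H w i j := by
    intro i j
    have h1 : ∀ᶠ w in 𝓝 (0 : ℂ), ∀ i ∈ (Finset.univ : Finset (Fin n)), ∀ j ∈ (Finset.univ : Finset (Fin n)),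
        P w i j = P 0 i j := by
      rw [Filter.eventually_all_finset]
      intro i _
      rw [Filter.eventually_all_finset]
      intro j _
      exact hloc i j
    have h2 : ∀ᶠ w in 𝓝 (0 : ℂ), w ∈ Metric.ball (0 : ℂ) 1 := Metric.ball_mem_nhds _ one_pos
    filter_upwards [h1, h2] with w hw hwb
    have h3 : P w = 1 := by
      ext i j
      rw [hw i (Finset.mem_univ _) j (Finset.mem_univ _), hP0]
    have h4 := p1 w hwb
    have h5 : Hf H w * (Hf H1 w).transpose = 1 := mul_eq_one_comm.1 h4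
    have h6 : V A H' w = Hf H w := by
      calc V A H' w = (Hf H w * (Hf H1 w).transpose) * V A H' w := by rw [h5, one_mul]
        _ = Hf H w * P w := by rw [Matrix.mul_assoc]
        _ = Hf H w := by rw [h3, mul_one]
    rw [h6]
  ext i j
  have hV : AnalyticOnNhd ℂ (fun w => V A H' w i j) Dm := fun w hw => V_an hA hH' hw.2 i j
  have hHa : AnalyticOnNhd ℂ (fun w => Hf H w i j) Dm := fun w hw => Hf_an hH hA i j w hw.1
  have h0 : (0 : ℂ) ∈ Dm := by
    refine ⟨Metric.mem_ball_self one_pos, ?_⟩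
    show (0 : ℂ).re < 1 / 2
    norm_num
  exact hV.eqOn_of_preconnected_of_eventuallyEq hHa Dm_convex.isPreconnected h0 (hnear i j)
    (⟨by rwa [Metric.mem_ball, dist_zero_right], hz2⟩ : z ∈ Dm)

end Pool.Agent.Run7.h416.CF

namespace Pool.Agent.Run7.h696.CF

open Pool.Agent.Run7.h416.CF

theorem p_EXT : S_EXT := by
  intro n A B H hA hH
  obtain ⟨H', hH'⟩ := exists_sol hA (A - B)
  classical
  refine ⟨fun z => if ‖z‖ < 1 then Hf H z else V A H' z, fun z hz => if_pos hz, fun z hz i j => ?_⟩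
  by_cases h1 : ‖z‖ < 1
  · have h2 : AnalyticAt ℂ (fun w => Hf H w i j) z := Hf_an hH hA i j z (by rwa [Metric.mem_ball, dist_zero_right])
    refine h2.congr ?_
    have h3 : ∀ᶠ w in 𝓝 z, w ∈ Metric.ball (0 : ℂ) 1 :=
      Metric.isOpen_ball.mem_nhds (by rwa [Metric.mem_ball, dist_zero_right])
    filter_upwards [h3] with w hw
    rw [Metric.mem_ball, dist_zero_right] at hw
    simp only [if_pos hw]
  · have hz2 : z.re < 1 / 2 := hz.resolve_left h1
    refine (V_an hA hH' hz2 i j).congr ?_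
    have h3 : ∀ᶠ w in 𝓝 z, w.re < 1 / 2 :=
      (isOpen_lt Complex.continuous_re continuous_const).mem_nhds hz2
    filter_upwards [h3] with w hw
    by_cases hw1 : ‖w‖ < 1
    · simp only [if_pos hw1]
      rw [V_eq hA hH hH' hw1 hw]
    · simp only [if_neg hw1]

end Pool.Agent.Run7.h696.CF
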